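import Pool.Agent.Helper799.TePos

set_option autoImplicit false

namespace Pool.Agent.Results.MP_02a0e4_an.TypeEAllReadings

open Pool.Helper799.Te

/-- Answer to Q1 in all its readings, for `𝕜 = ℝ` and for `𝕜 = ℂ`.
(1) As stated (type (E) defined with `liminf`, subspaces of every dimension `n`): the answer is
negative, there is a space of type (E) in which every sequence `E n`, `dim (E n) = n`, fails both
(a) and (b).
(2) Along subsequences the answer is positive: every space of type (E) satisfies (b) along an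
infinite set of dimensions, with Banach–Mazur distances at most `45`.
(3) With `lim` in place of `liminf` the answer is positive: then (b) holds for the full sequence. -/
theorem result : ∀ (𝕜 : Type) [RCLike 𝕜],
    (∃ (X : Type) (_ : NormedAddCommGroup X) (_ : NormedSpace 𝕜 X), TypeE 𝕜 X ∧
      ∀ E : ℕ → Submodule 𝕜 X, DimSeq E → ¬ PropA E ∧ ¬ PropB E) ∧
    (∀ (X : Type) [NormedAddCommGroup X] [NormedSpace 𝕜 X], TypeE 𝕜 X →
      ∃ (n : ℕ → ℕ) (E : ℕ → Submodule 𝕜 X), StrictMono n ∧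
        (∀ k, FiniteDimensional 𝕜 (E k) ∧ Module.finrank 𝕜 (E k) = n k) ∧
        (∀ k, distEuc (n k) (E k) ≤ 45) ∧
        Filter.Tendsto (fun k => projConst (E k) / Real.sqrt (n k)) Filter.atTop (nhds 0)) ∧
    (∀ (X : Type) [NormedAddCommGroup X] [NormedSpace 𝕜 X], CompleteSpace X →
      ¬ FiniteDimensional 𝕜 X →
      (∃ (A : ∀ n : ℕ, Euc 𝕜 n →L[𝕜] X) (B : ∀ n : ℕ, X →L[𝕜] Euc 𝕜 n),
        (∀ n, (B n).comp (A n) = ContinuousLinearMap.id 𝕜 (Euc 𝕜 n)) ∧
        (fun n : ℕ => ‖A n‖ * ‖B n‖) =o[Filter.atTop] (fun n : ℕ => Real.sqrt n)) →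
      ∃ E : ℕ → Submodule 𝕜 X, DimSeq E ∧ PropB E) := by
  intro 𝕜 _
  refine ⟨⟨TheX 𝕜, inferInstance, inferInstance, theX_typeE 𝕜, fun E hE => theX_fails 𝕜 E hE⟩,
    ?_, ?_⟩
  · intro X _ _ hE
    exact typeE_subseq hE
  · rintro X _ _ _ hX ⟨A, B, hAB, hlim⟩
    exact typeE_lim hX A B hAB hlim

end Pool.Agent.Results.MP_02a0e4_an.TypeEAllReadings
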