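import Pool.Agent.Helper799.TeNeg

set_option autoImplicit false

namespace Pool.Agent.Results.MP_02a0e4_an.TypeEWithoutGoodSequence

open Pool.Helper799.Te

/-- Negative answer to Q1, for real and for complex scalars: there is a Banach space of type (E)
such that no sequence of subspaces `E n` with `dim (E n) = n` has property (a) or property (b). -/
theorem result :
    (∃ (X : Type) (_ : NormedAddCommGroup X) (_ : NormedSpace ℝ X), TypeE ℝ X ∧
      ∀ E : ℕ → Submodule ℝ X, DimSeq E → ¬ PropA E ∧ ¬ PropB E) ∧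
    (∃ (X : Type) (_ : NormedAddCommGroup X) (_ : NormedSpace ℂ X), TypeE ℂ X ∧
      ∀ E : ℕ → Submodule ℂ X, DimSeq E → ¬ PropA E ∧ ¬ PropB E) :=
  ⟨⟨TheX ℝ, inferInstance, inferInstance, theX_typeE ℝ, fun E hE => theX_fails ℝ E hE⟩,
    ⟨TheX ℂ, inferInstance, inferInstance, theX_typeE ℂ, fun E hE => theX_fails ℂ E hE⟩⟩

end Pool.Agent.Results.MP_02a0e4_an.TypeEWithoutGoodSequence
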